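import Pool.Agent.H38R2.CG.N3b

/-!
# Project BI, leaf CNT: elementary estimates (hyperbola method with a bound for character sums)
-/

set_option autoImplicit false

namespace Pool.Agent.N38.BI.CNTh

open Finset Filter Pool.Agent.H38R2.CG

/-- Abel summation. -/
theorem abel (f : ℕ → ℝ) (y T : ℕ) (hyT : y ≤ T) :
    ∑ m ∈ Finset.Ioc y T, f m / m =
      (∑ m ∈ Finset.Icc 1 T, f m) / (T + 1) - (∑ m ∈ Finset.Icc 1 y, f m) / (y + 1) +
        ∑ m ∈ Finset.Ioc y T, (∑ n ∈ Finset.Icc 1 m, f n) / ((m : ℝ) * (m + 1)) := by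
  induction T, hyT using Nat.le_induction with
  | base => simp
  | succ T hyT ih =>
    rw [Finset.sum_Ioc_succ_top (by omega), Finset.sum_Ioc_succ_top (by omega), ih,
      Finset.sum_Icc_succ_top (by omega)]
    push_cast
    have h1 : (T : ℝ) + 1 ≠ 0 := by positivity
    have h2 : (T : ℝ) + 1 + 1 ≠ 0 := by positivity
    field_simp
    ring

/-- sum of 1/(m+1) over an interval. -/
theorem harm (T : ℕ) : ∑ m ∈ Finset.Icc 1 T, (1 : ℝ) / m ≤ 1 + Real.log T := by
  have h := harmonic_le_one_add_log T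
  have e : ((harmonic T : ℚ) : ℝ) = ∑ m ∈ Finset.Icc 1 T, (1 : ℝ) / m := by
    rw [harmonic_eq_sum_Icc]
    push_cast
    simp
  rw [← e]
  exact h

/-- Tail of the series. -/
theorem tail (f : ℕ → ℝ) (β : ℝ) (hβ : 0 ≤ β) (y : ℕ) (hy : 1 ≤ y)
    (hS : ∀ t : ℕ, y ≤ t → |∑ n ∈ Finset.Icc 1 t, f n| ≤ β * t) (T : ℕ) (hyT : y ≤ T) :
    |∑ m ∈ Finset.Ioc y T, f m / m| ≤ β * (3 + Real.log T) := by
  rw [abel f y T hyT]
  have h1 : |(∑ m ∈ Finset.Icc 1 T, f m) / (T + 1)| ≤ β := by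
    rw [abs_div, abs_of_pos (by positivity : (0 : ℝ) < (T : ℝ) + 1), div_le_iff₀ (by positivity)]
    refine (hS T hyT).trans ?_
    nlinarith
  have h2 : |(∑ m ∈ Finset.Icc 1 y, f m) / (y + 1)| ≤ β := by
    rw [abs_div, abs_of_pos (by positivity : (0 : ℝ) < (y : ℝ) + 1), div_le_iff₀ (by positivity)]
    refine (hS y le_rfl).trans ?_
    nlinarith
  have h3 : |∑ m ∈ Finset.Ioc y T, (∑ n ∈ Finset.Icc 1 m, f n) / ((m : ℝ) * (m + 1))| ≤
      β * (1 + Real.log T) := by
    calc |∑ m ∈ Finset.Ioc y T, (∑ n ∈ Finset.Icc 1 m, f n) / ((m : ℝ) * (m + 1))|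
        ≤ ∑ m ∈ Finset.Ioc y T, |(∑ n ∈ Finset.Icc 1 m, f n) / ((m : ℝ) * (m + 1))| :=
          Finset.abs_sum_le_sum_abs _ _
      _ ≤ ∑ m ∈ Finset.Ioc y T, β * (1 / (m : ℝ)) := by
          apply Finset.sum_le_sum
          intro m hm
          rw [Finset.mem_Ioc] at hm
          have hm0 : (0 : ℝ) < m := by
            have : 0 < m := by omega
            exact_mod_cast this
          rw [abs_div, abs_of_pos (by positivity : (0 : ℝ) < (m : ℝ) * (m + 1)),
            div_le_iff₀ (by positivity)]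
          refine (hS m hm.1.le).trans ?_
          have : β * (1 / (m : ℝ)) * ((m : ℝ) * (m + 1)) = β * (m + 1) := by
            field_simp
          rw [this]
          nlinarith
      _ ≤ ∑ m ∈ Finset.Icc 1 T, β * (1 / (m : ℝ)) := by
          apply Finset.sum_le_sum_of_subset_of_nonneg
          · intro m hm
            rw [Finset.mem_Ioc] at hm
            rw [Finset.mem_Icc]
            omega
          · intro m _ _
            positivity
      _ = β * ∑ m ∈ Finset.Icc 1 T, (1 : ℝ) / m := by rw [Finset.mul_sum]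
      _ ≤ β * (1 + Real.log T) := mul_le_mul_of_nonneg_left (harm T) hβ
  have h4 := abs_add_le ((∑ m ∈ Finset.Icc 1 T, f m) / ((T : ℝ) + 1) -
    (∑ m ∈ Finset.Icc 1 y, f m) / ((y : ℝ) + 1))
    (∑ m ∈ Finset.Ioc y T, (∑ n ∈ Finset.Icc 1 m, f n) / ((m : ℝ) * (m + 1)))
  have h5 := abs_sub ((∑ m ∈ Finset.Icc 1 T, f m) / ((T : ℝ) + 1))
    ((∑ m ∈ Finset.Icc 1 y, f m) / ((y : ℝ) + 1))
  nlinarith

/-- The hyperbola method. -/
theorem hyper (f : ℕ → ℝ) (β : ℝ) (hβ : 0 ≤ β) (hf : ∀ n : ℕ, 1 ≤ n → |f n| ≤ 1)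
    (y : ℕ) (hy : 1 ≤ y)
    (hS : ∀ t : ℕ, y ≤ t → |∑ n ∈ Finset.Icc 1 t, f n| ≤ β * t) (x : ℕ) (hyx : y ≤ x) :
    |(∑ n ∈ Finset.Icc 1 x, ∑ m ∈ n.divisors, f m) - x * ∑ m ∈ Finset.Icc 1 y, f m / m| ≤
      y + 2 * β * x * (1 + Real.log x) := by
  rw [N3bh.swap f x]
  have hsplit : ∑ m ∈ Finset.Icc 1 x, ((x / m : ℕ) : ℝ) * f m =
      ∑ m ∈ Finset.Icc 1 y, ((x / m : ℕ) : ℝ) * f m +
        ∑ m ∈ Finset.Ioc y x, ((x / m : ℕ) : ℝ) * f m := by
    rw [← Finset.sum_union]
    · congr 1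
      ext m
      simp only [Finset.mem_union, Finset.mem_Icc, Finset.mem_Ioc]
      omega
    · rw [Finset.disjoint_left]
      intro m h1 h2
      rw [Finset.mem_Icc] at h1
      rw [Finset.mem_Ioc] at h2
      omega
  have hA : |∑ m ∈ Finset.Icc 1 y, ((x / m : ℕ) : ℝ) * f m -
      x * ∑ m ∈ Finset.Icc 1 y, f m / m| ≤ y := by
    rw [Finset.mul_sum, ← Finset.sum_sub_distrib]
    calc |∑ m ∈ Finset.Icc 1 y, (((x / m : ℕ) : ℝ) * f m - x * (f m / m))|
        ≤ ∑ m ∈ Finset.Icc 1 y, |((x / m : ℕ) : ℝ) * f m - x * (f m / m)| :=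
          Finset.abs_sum_le_sum_abs _ _
      _ ≤ ∑ m ∈ Finset.Icc 1 y, (1 : ℝ) := by
          apply Finset.sum_le_sum
          intro m hm
          rw [Finset.mem_Icc] at hm
          have hm0 : (0 : ℝ) < m := by
            have : 0 < m := by omega
            exact_mod_cast this
          have e : ((x / m : ℕ) : ℝ) * f m - x * (f m / m) = (((x / m : ℕ) : ℝ) - x / m) * f m := by
            field_simp
          rw [e, abs_mul]
          have h1 : |((x / m : ℕ) : ℝ) - x / m| ≤ 1 := by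
            have h2 : ((x / m : ℕ) : ℝ) ≤ (x : ℝ) / m := Nat.cast_div_le
            have h3 : (x : ℝ) / m < ((x / m : ℕ) : ℝ) + 1 := by
              rw [div_lt_iff₀ hm0]
              have := Nat.lt_div_mul_add (a := x) (b := m) (by omega)
              have h5 : (x : ℝ) < ((x / m * m + m : ℕ) : ℝ) := by exact_mod_cast this
              push_cast at h5
              linarith
            rw [abs_le]
            constructor <;> linarith
          calc |((x / m : ℕ) : ℝ) - x / m| * |f m| ≤ 1 * 1 :=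
                mul_le_mul h1 (hf m hm.1) (abs_nonneg _) zero_le_one
            _ = 1 := by norm_num
      _ = y := by simp
  have hB : |∑ m ∈ Finset.Ioc y x, ((x / m : ℕ) : ℝ) * f m| ≤ 2 * β * x * (1 + Real.log x) := by
    rw [N3bh.large f x y hy]
    calc |∑ j ∈ Finset.Icc 1 (x / y), ∑ m ∈ Finset.Ioc y (x / j), f m|
        ≤ ∑ j ∈ Finset.Icc 1 (x / y), |∑ m ∈ Finset.Ioc y (x / j), f m| :=
          Finset.abs_sum_le_sum_abs _ _
      _ ≤ ∑ j ∈ Finset.Icc 1 (x / y), 2 * β * x * (1 / (j : ℝ)) := by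
          apply Finset.sum_le_sum
          intro j hj
          rw [Finset.mem_Icc] at hj
          have hj0 : (0 : ℝ) < j := by
            have : 0 < j := by omega
            exact_mod_cast this
          have hyj : y ≤ x / j := by
            rw [Nat.le_div_iff_mul_le (by omega)]
            calc y * j ≤ y * (x / y) := Nat.mul_le_mul_left _ hj.2
              _ ≤ x := Nat.mul_div_le x y
          have e : ∑ m ∈ Finset.Ioc y (x / j), f m =
              ∑ m ∈ Finset.Icc 1 (x / j), f m - ∑ m ∈ Finset.Icc 1 y, f m := by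
            rw [eq_sub_iff_add_eq, add_comm, ← Finset.sum_union]
            · congr 1
              ext m
              simp only [Finset.mem_union, Finset.mem_Icc, Finset.mem_Ioc]
              omega
            · rw [Finset.disjoint_left]
              intro m h1 h2
              rw [Finset.mem_Icc] at h1
              rw [Finset.mem_Ioc] at h2
              omega
          rw [e]
          have h1 := hS (x / j) hyj
          have h2 := hS y le_rfl
          have h3 : ((x / j : ℕ) : ℝ) ≤ (x : ℝ) / j := Nat.cast_div_le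
          have h4 : (y : ℝ) ≤ ((x / j : ℕ) : ℝ) := by exact_mod_cast hyj
          have h5 := abs_sub (∑ m ∈ Finset.Icc 1 (x / j), f m) (∑ m ∈ Finset.Icc 1 y, f m)
          have h6 : β * ((x / j : ℕ) : ℝ) ≤ β * (x / j) := mul_le_mul_of_nonneg_left h3 hβ
          have h7 : β * (y : ℝ) ≤ β * (x / j) := mul_le_mul_of_nonneg_left (h4.trans h3) hβ
          have h8 : 2 * β * x * (1 / (j : ℝ)) = β * (x / j) + β * (x / j) := by ring
          rw [h8]
          linarith
      _ ≤ ∑ j ∈ Finset.Icc 1 x, 2 * β * x * (1 / (j : ℝ)) := by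
          apply Finset.sum_le_sum_of_subset_of_nonneg
          · apply Finset.Icc_subset_Icc le_rfl (Nat.div_le_self _ _)
          · intro m _ _
            positivity
      _ = 2 * β * x * ∑ j ∈ Finset.Icc 1 x, (1 : ℝ) / j := by rw [Finset.mul_sum]
      _ ≤ 2 * β * x * (1 + Real.log x) := by
          apply mul_le_mul_of_nonneg_left (harm x)
          positivity
  rw [hsplit]
  have := abs_add_le (∑ m ∈ Finset.Icc 1 y, ((x / m : ℕ) : ℝ) * f m -
      x * ∑ m ∈ Finset.Icc 1 y, f m / m) (∑ m ∈ Finset.Ioc y x, ((x / m : ℕ) : ℝ) * f m)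
  have e : ∑ m ∈ Finset.Icc 1 y, ((x / m : ℕ) : ℝ) * f m +
      ∑ m ∈ Finset.Ioc y x, ((x / m : ℕ) : ℝ) * f m - x * ∑ m ∈ Finset.Icc 1 y, f m / m =
      (∑ m ∈ Finset.Icc 1 y, ((x / m : ℕ) : ℝ) * f m -
      x * ∑ m ∈ Finset.Icc 1 y, f m / m) + ∑ m ∈ Finset.Ioc y x, ((x / m : ℕ) : ℝ) * f m := by
    ring
  rw [e]
  linarith

/-- The sum of the divisor sums, compared with the limit of the series. -/
theorem main (f : ℕ → ℝ) (β L E : ℝ) (hβ : 0 ≤ β) (hf : ∀ n : ℕ, 1 ≤ n → |f n| ≤ 1)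
    (y : ℕ) (hy : 1 ≤ y)
    (hS : ∀ t : ℕ, y ≤ t → |∑ n ∈ Finset.Icc 1 t, f n| ≤ β * t) (x : ℕ) (hyx : y ≤ x)
    (T : ℕ) (hyT : y ≤ T) (hL : |L - ∑ n ∈ Finset.Icc 1 T, f n / n| ≤ E) :
    x * L - x * (E + β * (3 + Real.log T)) - y - 2 * β * x * (1 + Real.log x) ≤
      ∑ n ∈ Finset.Icc 1 x, ∑ m ∈ n.divisors, f m := by
  have h1 := hyper f β hβ hf y hy hS x hyx
  have h2 := tail f β hβ y hy hS T hyT
  have e : ∑ n ∈ Finset.Icc 1 T, f n / n =
      ∑ n ∈ Finset.Icc 1 y, f n / n + ∑ m ∈ Finset.Ioc y T, f m / m := by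
    rw [← Finset.sum_union]
    · congr 1
      ext m
      simp only [Finset.mem_union, Finset.mem_Icc, Finset.mem_Ioc]
      omega
    · rw [Finset.disjoint_left]
      intro m h1 h2
      rw [Finset.mem_Icc] at h1
      rw [Finset.mem_Ioc] at h2
      omega
  have h3 : L - (E + β * (3 + Real.log T)) ≤ ∑ n ∈ Finset.Icc 1 y, f n / n := by
    rw [e] at hL
    have := (abs_le.1 hL).2
    have := (abs_le.1 h2).2
    linarith
  have h4 : (x : ℝ) * (L - (E + β * (3 + Real.log T))) ≤ x * ∑ n ∈ Finset.Icc 1 y, f n / n :=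
    mul_le_mul_of_nonneg_left h3 (Nat.cast_nonneg _)
  have h5 := (abs_le.1 h1).1
  linarith

end Pool.Agent.N38.BI.CNTh
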