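import Pool.Agent.N71.BI.Stm
import Pool.Agent.N38.BI.CNTh
import Pool.Agent.H38R2.CG.N0
import Pool.Agent.H38R2.CG.N0d
import Pool.Agent.H38R2.CG.N0e
import Pool.Agent.H38R2.CG.SPL
import Pool.Agent.H38R2.CG.N2
import Pool.Agent.H38R2.CG.KR
import Pool.Agent.H38R2.CG.PV
import Pool.Agent.H38R2.CG.N3a

/-!
# Project BI, leaf CNT: the number of ideals of norm at most `x`, `x` at least `D^(1/4+η)`
-/

set_option autoImplicit false

namespace Pool.Agent.N38.BI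

open Finset Filter NumberField Pool.Agent.H38R2.CG Pool.Agent.N71.BI
open scoped Classical

theorem t0 {a : ℝ} (ha : 0 < a) : Tendsto (fun D : ℕ => (D : ℝ) ^ (-a)) atTop (nhds 0) :=
  (tendsto_rpow_neg_atTop ha).comp tendsto_natCast_atTop_atTop

theorem t1 {a : ℝ} (ha : 0 < a) :
    Tendsto (fun D : ℕ => (D : ℝ) ^ (-a) * Real.log D) atTop (nhds 0) := by
  have h := ((isLittleO_log_rpow_atTop ha).tendsto_div_nhds_zero).comp
    (tendsto_natCast_atTop_atTop (R := ℝ))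
  refine h.congr ?_
  intro D
  simp only [Function.comp]
  rw [Real.rpow_neg (Nat.cast_nonneg _), div_eq_mul_inv, mul_comm]

/-- The divisor sums of the character are nonnegative. -/
theorem div_nonneg' (D : ℕ) (hD : IsFund D) (n : ℕ) (hn : 1 ≤ n) :
    0 ≤ ∑ m ∈ n.divisors, (chi D m : ℝ) := by
  have h_P_N0 : P_N0 := T_N0
  have h_P_N0d : P_N0d := T_N0d
  have h_P_SPL : P_SPL := T_SPL h_P_N0
  have h_P_N2 : P_N2 := T_N2 h_P_SPL
  have h_P_N0e : P_N0e := T_N0e h_P_N0d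
  obtain ⟨K, i1, i2, hfr, hdisc⟩ := h_P_N0e D hD
  have h := h_P_N2 K D hD hfr hdisc n hn
  have h' : ((Nat.card {I : Ideal (𝓞 K) // Ideal.absNorm I = n} : ℤ) : ℝ) =
      ((∑ m ∈ n.divisors, chi D m : ℤ) : ℝ) := by rw [h]
  rw [Int.cast_sum] at h'
  rw [← h', Int.cast_natCast]
  positivity

theorem chi_one (D : ℤ) : chi D 1 = 1 := by
  simp [chi]

/-- **CNT.** -/
theorem t_CNT (hBUR : E_BUR) (hSIE : E_SIE) : E_CNT := by
  intro η ε hη hε
  obtain ⟨δ, C, hδ, hC, hB⟩ := hBUR (η / 2) (by positivity)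
  set ε' : ℝ := min ε (min (δ / 2) (min (η / 4) 1)) with hε'def
  have hε' : 0 < ε' := by
    rw [hε'def]
    refine lt_min hε (lt_min (by positivity) (lt_min (by positivity) one_pos))
  have hε1 : ε' ≤ ε := min_le_left _ _
  have hε2 : ε' ≤ δ / 2 := (min_le_right _ _).trans (min_le_left _ _)
  have hε3 : ε' ≤ η / 4 := (min_le_right _ _).trans ((min_le_right _ _).trans (min_le_left _ _))
  have hε4 : ε' ≤ 1 := (min_le_right _ _).trans ((min_le_right _ _).trans (min_le_right _ _))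
  obtain ⟨c, hc, hS⟩ := hSIE ε' hε'
  obtain ⟨C', hC', hN3a⟩ := T_N3a T_KR T_PV
  -- the error terms
  have hlim : Tendsto (fun D : ℕ => C' * ((D : ℝ) ^ (-(3 / 2 - ε')) * Real.log D) +
      C * (3 * (D : ℝ) ^ (-(δ - ε')) + 2 * ((D : ℝ) ^ (-(δ - ε')) * Real.log D)) +
      2 * (D : ℝ) ^ (-(η / 2 - ε')) +
      2 * C * ((D : ℝ) ^ (-(δ - ε')) + (D : ℝ) ^ (-(δ - ε')) * Real.log D)) atTop (nhds 0) := by
    have e1 : 0 < 3 / 2 - ε' := by linarith
    have e2 : 0 < δ - ε' := by linarith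
    have e3 : 0 < η / 2 - ε' := by linarith
    have h := ((((t1 e1).const_mul C').add
      ((((t0 e2).const_mul 3).add ((t1 e2).const_mul 2)).const_mul C)).add
      ((t0 e3).const_mul 2)).add (((t0 e2).add (t1 e2)).const_mul (2 * C))
    simpa using h
  have hev := hlim.eventually (gt_mem_nhds (show (0 : ℝ) < c / 2 by positivity))
  obtain ⟨D0, hD0⟩ := eventually_atTop.1 hev
  have hcast : (0 : ℝ) < (D0 : ℝ) + 1 := by positivity
  refine ⟨min (c / 2) (1 / ((D0 : ℝ) + 1)), lt_min (by positivity) (by positivity), ?_⟩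
  intro D hD x hx hxD
  have hD1 : 1 < D := hD.1
  have hDr : (1 : ℝ) < D := by exact_mod_cast hD1
  have hDp : (0 : ℝ) < D := by linarith
  have hx1 : 1 ≤ x := by
    have h1 : (1 : ℝ) ≤ (D : ℝ) ^ (1 / 4 + η) := Real.one_le_rpow hDr.le (by positivity)
    have h2 : (1 : ℝ) ≤ x := h1.trans hx
    exact_mod_cast h2
  have hxp : (0 : ℝ) < x := by exact_mod_cast hx1
  rcases lt_or_ge D D0 with hlt | hge
  · -- small D
    have hsum : (1 : ℝ) ≤ ∑ n ∈ Finset.Icc 1 x, ∑ m ∈ n.divisors, (chi D m : ℝ) := by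
      have h1 : ∑ m ∈ (1 : ℕ).divisors, (chi D m : ℝ) = 1 := by
        rw [Nat.divisors_one, Finset.sum_singleton, chi_one]
        norm_num
      calc (1 : ℝ) = ∑ m ∈ (1 : ℕ).divisors, (chi D m : ℝ) := h1.symm
        _ ≤ ∑ n ∈ Finset.Icc 1 x, ∑ m ∈ n.divisors, (chi D m : ℝ) := by
            apply Finset.single_le_sum (f := fun n : ℕ => ∑ m ∈ n.divisors, (chi D m : ℝ))
            · intro n hn
              exact div_nonneg' D hD n (Finset.mem_Icc.1 hn).1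
            · rw [Finset.mem_Icc]
              omega
    have h2 : (D : ℝ) ^ (-ε) ≤ 1 := Real.rpow_le_one_of_one_le_of_nonpos hDr.le (by linarith)
    have h3 : (0 : ℝ) ≤ (D : ℝ) ^ (-ε) := Real.rpow_nonneg hDp.le _
    have h4 : (x : ℝ) ≤ (D0 : ℝ) + 1 := by
      have h5 : (x : ℝ) ≤ D := by exact_mod_cast hxD
      have h6 : (D : ℝ) < D0 := by exact_mod_cast hlt
      linarith
    calc min (c / 2) (1 / ((D0 : ℝ) + 1)) * (D : ℝ) ^ (-ε) * x
        ≤ (1 / ((D0 : ℝ) + 1)) * 1 * ((D0 : ℝ) + 1) := by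
          apply mul_le_mul _ h4 (Nat.cast_nonneg _) (by positivity)
          apply mul_le_mul (min_le_right _ _) h2 h3 (by positivity)
      _ = 1 := by field_simp
      _ ≤ _ := hsum
  · -- large D
    have hF := hD0 D hge
    set β : ℝ := C * (D : ℝ) ^ (-δ) with hβdef
    have hβ : 0 ≤ β := by positivity
    set y : ℕ := ⌈(D : ℝ) ^ (1 / 4 + η / 2)⌉₊ with hydef
    have hpow1 : (1 : ℝ) ≤ (D : ℝ) ^ (1 / 4 + η / 2) := Real.one_le_rpow hDr.le (by positivity)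
    have hy1 : 1 ≤ y := by
      rw [hydef, Nat.one_le_ceil_iff]
      linarith
    have hyx : y ≤ x := by
      rw [hydef, Nat.ceil_le]
      refine le_trans ?_ hx
      exact Real.rpow_le_rpow_of_exponent_le hDr.le (by linarith)
    have hy2 : (y : ℝ) ≤ 2 * (D : ℝ) ^ (-(η / 2)) * x := by
      have h1 : (y : ℝ) < (D : ℝ) ^ (1 / 4 + η / 2) + 1 := Nat.ceil_lt_add_one (by positivity)
      have h2 : (D : ℝ) ^ (1 / 4 + η / 2) = (D : ℝ) ^ (-(η / 2)) * (D : ℝ) ^ (1 / 4 + η) := by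
        rw [← Real.rpow_add hDp]
        congr 1
        ring
      have h3 : (D : ℝ) ^ (-(η / 2)) * (D : ℝ) ^ (1 / 4 + η) ≤ (D : ℝ) ^ (-(η / 2)) * x :=
        mul_le_mul_of_nonneg_left hx (Real.rpow_nonneg hDp.le _)
      linarith
    have hT : y ≤ D ^ 2 := by
      calc y ≤ D := hyx.trans hxD
        _ ≤ D ^ 2 := by nlinarith
    have hT1 : 1 ≤ D ^ 2 := by nlinarith
    obtain ⟨χ, hχ1, hχ⟩ := T_KR D hD
    have hf : ∀ n : ℕ, 1 ≤ n → |(chi D n : ℝ)| ≤ 1 := by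
      intro n hn
      have h := DirichletCharacter.norm_le_one χ (n : ZMod D)
      rw [hχ n hn, Complex.norm_intCast] at h
      exact_mod_cast h
    have hBS : ∀ t : ℕ, y ≤ t → |∑ n ∈ Finset.Icc 1 t, (chi D n : ℝ)| ≤ β * t := by
      intro t ht
      apply hB D hD t
      calc (D : ℝ) ^ (1 / 4 + η / 2) ≤ y := Nat.le_ceil _
        _ ≤ t := by exact_mod_cast ht
    have hmain := CNTh.main (fun n => (chi D n : ℝ)) β (Lone D)
      (C' * √(D : ℝ) * Real.log D / ((D ^ 2 : ℕ) : ℝ)) hβ hf y hy1 hBS x hyx (D ^ 2) hT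
      (hN3a D hD (D ^ 2) hT1)
    have hSD := hS D hD
    have hlogT : Real.log ((D ^ 2 : ℕ) : ℝ) = 2 * Real.log D := by
      push_cast
      rw [Real.log_pow]
      norm_num
    have hlogx : Real.log x ≤ Real.log D :=
      Real.log_le_log hxp (by exact_mod_cast hxD)
    have hlogD : 0 ≤ Real.log D := Real.log_nonneg hDr.le
    have hE : C' * √(D : ℝ) * Real.log D / ((D ^ 2 : ℕ) : ℝ) =
        (D : ℝ) ^ (-ε') * (C' * ((D : ℝ) ^ (-(3 / 2 - ε')) * Real.log D)) := by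
      have h1 : √(D : ℝ) / ((D ^ 2 : ℕ) : ℝ) = (D : ℝ) ^ (-ε') * (D : ℝ) ^ (-(3 / 2 - ε')) := by
        rw [← Real.rpow_add hDp, Real.sqrt_eq_rpow]
        push_cast
        rw [← Real.rpow_natCast (D : ℝ) 2, ← Real.rpow_sub hDp]
        congr 1
        push_cast
        ring
      calc C' * √(D : ℝ) * Real.log D / ((D ^ 2 : ℕ) : ℝ)
          = C' * (√(D : ℝ) / ((D ^ 2 : ℕ) : ℝ)) * Real.log D := by ring
        _ = _ := by rw [h1]; ring
    have hβ2 : β = (D : ℝ) ^ (-ε') * (C * (D : ℝ) ^ (-(δ - ε'))) := by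
      rw [hβdef]
      have h1 : (D : ℝ) ^ (-δ) = (D : ℝ) ^ (-ε') * (D : ℝ) ^ (-(δ - ε')) := by
        rw [← Real.rpow_add hDp]
        congr 1
        ring
      rw [h1]
      ring
    have hη2 : (D : ℝ) ^ (-(η / 2)) = (D : ℝ) ^ (-ε') * (D : ℝ) ^ (-(η / 2 - ε')) := by
      rw [← Real.rpow_add hDp]
      congr 1
      ring
    have hP : 0 < (D : ℝ) ^ (-ε') := Real.rpow_pos_of_pos hDp _
    have hF2 : (D : ℝ) ^ (-ε') * (C' * ((D : ℝ) ^ (-(3 / 2 - ε')) * Real.log D) +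
      C * (3 * (D : ℝ) ^ (-(δ - ε')) + 2 * ((D : ℝ) ^ (-(δ - ε')) * Real.log D)) +
      2 * (D : ℝ) ^ (-(η / 2 - ε')) +
      2 * C * ((D : ℝ) ^ (-(δ - ε')) + (D : ℝ) ^ (-(δ - ε')) * Real.log D)) ≤
        (D : ℝ) ^ (-ε') * (c / 2) := mul_le_mul_of_nonneg_left hF.le hP.le
    have hfinal : (x : ℝ) * (c / 2 * (D : ℝ) ^ (-ε')) ≤
        ∑ n ∈ Finset.Icc 1 x, ∑ m ∈ n.divisors, (chi D m : ℝ) := by
      refine le_trans ?_ hmain
      rw [hlogT]
      have k1 : β * (3 + 2 * Real.log D) = (D : ℝ) ^ (-ε') *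
          (C * (3 * (D : ℝ) ^ (-(δ - ε')) + 2 * ((D : ℝ) ^ (-(δ - ε')) * Real.log D))) := by
        rw [hβ2]; ring
      have k2 : 2 * β * (1 + Real.log D) = (D : ℝ) ^ (-ε') *
          (2 * C * ((D : ℝ) ^ (-(δ - ε')) + (D : ℝ) ^ (-(δ - ε')) * Real.log D)) := by
        rw [hβ2]; ring
      have k3 : 2 * β * x * (1 + Real.log x) ≤ x * (2 * β * (1 + Real.log D)) := by
        have : 2 * β * x * (1 + Real.log x) ≤ 2 * β * x * (1 + Real.log D) := by
          apply mul_le_mul_of_nonneg_left _ (by positivity)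
          linarith
        linarith
      have k4 : (y : ℝ) ≤ x * ((D : ℝ) ^ (-ε') * (2 * (D : ℝ) ^ (-(η / 2 - ε')))) := by
        rw [hη2] at hy2
        linarith
      have k5 : (x : ℝ) * (c / 2 * (D : ℝ) ^ (-ε')) ≤ x * (Lone D -
          (C' * √(D : ℝ) * Real.log D / ((D ^ 2 : ℕ) : ℝ) + β * (3 + 2 * Real.log D)) -
          (D : ℝ) ^ (-ε') * (2 * (D : ℝ) ^ (-(η / 2 - ε'))) - 2 * β * (1 + Real.log D)) := by
        apply mul_le_mul_of_nonneg_left _ hxp.le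
        rw [hE, k1, k2]
        linarith
      linarith
    refine le_trans ?_ hfinal
    have h2 : (D : ℝ) ^ (-ε) ≤ (D : ℝ) ^ (-ε') :=
      Real.rpow_le_rpow_of_exponent_le hDr.le (by linarith)
    calc min (c / 2) (1 / ((D0 : ℝ) + 1)) * (D : ℝ) ^ (-ε) * x
        ≤ (c / 2) * (D : ℝ) ^ (-ε') * x := by
          apply mul_le_mul_of_nonneg_right _ hxp.le
          apply mul_le_mul (min_le_left _ _) h2 (Real.rpow_nonneg hDp.le _) (by positivity)
      _ = (x : ℝ) * (c / 2 * (D : ℝ) ^ (-ε')) := by ring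

end Pool.Agent.N38.BI
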